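import Mathlib

/-!
Multiplicative lattices, principal elements, r-lattices, the weak union condition and
representability, exactly as in the problem file of `MP_173d24_al`.
-/

namespace Pool.Agent.Helper52.RLat

universe u v

/-- A multiplicative lattice: a complete lattice with a commutative associative multiplication
that distributes over arbitrary joins and has the greatest element as identity. -/
class MulLattice (L : Type u) extends CompleteLattice L, CommMonoid L where
  one_eq_top : (1 : L) = ⊤
  mul_sSup : ∀ (a : L) (S : Set L), a * sSup S = sSup ((fun b => a * b) '' S)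

variable (L : Type u) [MulLattice L]

/-- The residual `A : B`, the join of all `X` with `X * B ≤ A`. -/
def residual {L : Type u} [MulLattice L] (A B : L) : L := sSup {X | X * B ≤ A}

/-- Principal elements in the sense of Dilworth. -/
def IsPrincipalElt {L : Type u} [MulLattice L] (E : L) : Prop :=
  (∀ A B : L, A ⊓ B * E = (residual A E ⊓ B) * E) ∧
  (∀ A B : L, A ⊔ residual B E = residual (A * E ⊔ B) E)

/-- Compact elements. -/
def IsCompactElt {L : Type u} [MulLattice L] (E : L) : Prop :=
  ∀ S : Set L, E ≤ sSup S → ∃ T : Set L, T ⊆ S ∧ T.Finite ∧ E ≤ sSup T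

/-- An r-lattice: modular, principally generated, compactly generated, with compact greatest
element. -/
def IsRLattice : Prop :=
  (∀ A B C : L, A ≤ C → A ⊔ (B ⊓ C) = (A ⊔ B) ⊓ C) ∧
  (∀ A : L, ∃ S : Set L, (∀ E ∈ S, IsPrincipalElt E) ∧ A = sSup S) ∧
  (∀ A : L, ∃ S : Set L, (∀ E ∈ S, IsCompactElt E) ∧ A = sSup S) ∧
  IsCompactElt (⊤ : L)

/-- Distributivity as a lattice. -/
def IsDistributive : Prop := ∀ A B C : L, A ⊓ (B ⊔ C) = (A ⊓ B) ⊔ (A ⊓ C)

/-- The weak union condition. -/
def WeakUnion : Prop :=
  ∀ A B C : L, ¬ A ≤ B → ¬ A ≤ C → ∃ E : L, IsPrincipalElt E ∧ E ≤ A ∧ ¬ E ≤ B ∧ ¬ E ≤ C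

/-- `L` is isomorphic, as a multiplicative lattice, to the lattice of ideals of the commutative
ring `R`. -/
def RepresentedBy (R : Type v) [CommRing R] : Prop :=
  ∃ f : L ≃o Ideal R, ∀ A B : L, f (A * B) = f A * f B

end Pool.Agent.Helper52.RLat
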