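import Mathlib
import Pool.Agent.Helper52.RLatDefs

/-!
The lattice of order ideals of a commutative monoid `Q` which looks like the monoid of finitely
generated ideals of a Bezout ring is a distributive r-lattice with the weak union condition.
-/

namespace Pool.Agent.Helper52.RLat

universe u v

/-- The algebraic properties of the monoid of principal ideals of a Bezout ring. -/
class BezQ (Q : Type u) [DistribLattice Q] [CommMonoid Q] [OrderBot Q] : Prop where
  le_one : ∀ x : Q, x ≤ 1
  mul_sup' : ∀ x y z : Q, x * (y ⊔ z) = x * y ⊔ x * z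
  mul_bot' : ∀ x : Q, x * ⊥ = ⊥
  div : ∀ x y : Q, x ≤ y → ∃ z, x = y * z
  sel : ∀ y a b x : Q, y * x ≤ a * x ⊔ b → ∃ c, c * x ≤ b ∧ y ≤ a ⊔ c

variable {Q : Type u} [DistribLattice Q] [CommMonoid Q] [OrderBot Q] [BezQ Q]

theorem bez_mul_le_mul {x x' y y' : Q} (h : x ≤ x') (h' : y ≤ y') : x * y ≤ x' * y' := by
  have h1 : ∀ a b c : Q, b ≤ c → a * b ≤ a * c := by
    intro a b c hbc
    have := BezQ.mul_sup' a b c
    rw [sup_eq_right.mpr hbc] at this
    rw [this]; exact le_sup_left
  calc x * y ≤ x * y' := h1 _ _ _ h'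
    _ = y' * x := mul_comm _ _
    _ ≤ y' * x' := h1 _ _ _ h
    _ = x' * y' := mul_comm _ _

theorem bez_mul_le_left (x y : Q) : x * y ≤ x := by
  calc x * y ≤ x * 1 := bez_mul_le_mul le_rfl (BezQ.le_one y)
    _ = x := mul_one x

theorem bez_mul_le_right (x y : Q) : x * y ≤ y := by
  rw [mul_comm]; exact bez_mul_le_left _ _

open Order (Ideal)
open Order.Ideal (principal)

/-- The product of two order ideals. -/
def mulI (A B : Order.Ideal Q) : Order.Ideal Q where
  carrier := {z | ∃ x ∈ A, ∃ y ∈ B, z ≤ x * y}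
  lower' := by
    rintro a b hba ⟨x, hx, y, hy, h⟩
    exact ⟨x, hx, y, hy, hba.trans h⟩
  nonempty' := ⟨⊥, ⊥, A.bot_mem, ⊥, B.bot_mem, bot_le⟩
  directed' := by
    rintro a ⟨x, hx, y, hy, h⟩ b ⟨x', hx', y', hy', h'⟩
    refine ⟨a ⊔ b, ⟨x ⊔ x', Order.Ideal.sup_mem hx hx', y ⊔ y', Order.Ideal.sup_mem hy hy', ?_⟩,
      le_sup_left, le_sup_right⟩
    exact sup_le (h.trans (bez_mul_le_mul le_sup_left le_sup_left))
      (h'.trans (bez_mul_le_mul le_sup_right le_sup_right))

theorem mem_mulI {A B : Order.Ideal Q} {z : Q} :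
    z ∈ mulI A B ↔ ∃ x ∈ A, ∃ y ∈ B, z ≤ x * y := Iff.rfl

/-- The residual of two order ideals. -/
def resI (A B : Order.Ideal Q) : Order.Ideal Q where
  carrier := {z | ∀ y ∈ B, z * y ∈ A}
  lower' := by
    intro a b hba h y hy
    exact A.lower (bez_mul_le_mul hba le_rfl) (h y hy)
  nonempty' := ⟨⊥, fun y _ => by
    rw [mul_comm, BezQ.mul_bot']; exact A.bot_mem⟩
  directed' := by
    intro a ha b hb
    refine ⟨a ⊔ b, fun y hy => ?_, le_sup_left, le_sup_right⟩
    rw [mul_comm, BezQ.mul_sup', mul_comm y a, mul_comm y b]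
    exact Order.Ideal.sup_mem (ha y hy) (hb y hy)

theorem mem_resI {A B : Order.Ideal Q} {z : Q} :
    z ∈ resI A B ↔ ∀ y ∈ B, z * y ∈ A := Iff.rfl

theorem mulI_le_iff {A B C : Order.Ideal Q} : mulI A B ≤ C ↔ A ≤ resI C B := by
  constructor
  · intro h x hx y hy
    exact h ⟨x, hx, y, hy, le_rfl⟩
  · rintro h z ⟨x, hx, y, hy, hz⟩
    exact C.lower hz (h hx y hy)

theorem mulI_comm (A B : Order.Ideal Q) : mulI A B = mulI B A := by
  refine le_antisymm ?_ ?_ <;>
  · rintro z ⟨x, hx, y, hy, hz⟩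
    exact ⟨y, hy, x, hx, by rwa [mul_comm]⟩

theorem mulI_assoc (A B C : Order.Ideal Q) : mulI (mulI A B) C = mulI A (mulI B C) := by
  refine le_antisymm ?_ ?_
  · rintro z ⟨x, ⟨a, ha, b, hb, hx⟩, c, hc, hz⟩
    refine ⟨a, ha, b * c, ⟨b, hb, c, hc, le_rfl⟩, ?_⟩
    rw [← mul_assoc]
    exact hz.trans (bez_mul_le_mul hx le_rfl)
  · rintro z ⟨a, ha, x, ⟨b, hb, c, hc, hx⟩, hz⟩
    refine ⟨a * b, ⟨a, ha, b, hb, le_rfl⟩, c, hc, ?_⟩
    rw [mul_assoc]
    exact hz.trans (bez_mul_le_mul le_rfl hx)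

theorem mem_top_ideal (x : Q) : x ∈ (⊤ : Order.Ideal Q) := trivial

theorem top_mulI (A : Order.Ideal Q) : mulI ⊤ A = A := by
  refine le_antisymm ?_ ?_
  · rintro z ⟨x, _, y, hy, hz⟩
    exact A.lower (hz.trans (bez_mul_le_right _ _)) hy
  · intro z hz
    exact ⟨1, mem_top_ideal _, z, hz, by rw [one_mul]⟩

instance : MulLattice (Order.Ideal Q) where
  mul := mulI
  mul_assoc := mulI_assoc
  one := ⊤
  one_mul := top_mulI
  mul_one := fun A => (mulI_comm A ⊤).trans (top_mulI A)
  mul_comm := mulI_comm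
  one_eq_top := rfl
  mul_sSup := by
    intro A S
    refine le_antisymm ?_ ?_
    · have h1 : mulI (sSup S) A ≤ sSup ((fun B => mulI A B) '' S) := by
        rw [mulI_le_iff]
        refine sSup_le ?_
        intro B hB
        rw [← mulI_le_iff, mulI_comm]
        exact le_sSup ⟨B, hB, rfl⟩
      rw [mulI_comm] at h1
      exact h1
    · refine sSup_le ?_
      rintro _ ⟨B, hB, rfl⟩
      rintro z ⟨x, hx, y, hy, hz⟩
      exact ⟨x, hx, y, (le_sSup hB : B ≤ sSup S) hy, hz⟩

theorem mul_def (A B : Order.Ideal Q) : A * B = mulI A B := rfl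

theorem mem_mul {A B : Order.Ideal Q} {z : Q} :
    z ∈ A * B ↔ ∃ x ∈ A, ∃ y ∈ B, z ≤ x * y := Iff.rfl

theorem residual_eq (A B : Order.Ideal Q) : residual A B = resI A B := by
  refine le_antisymm ?_ ?_
  · refine sSup_le ?_
    intro X hX
    exact mulI_le_iff.mp hX
  · refine le_sSup ?_
    exact mulI_le_iff.mpr le_rfl

theorem principal_mul (x y : Q) : principal x * principal y = principal (x * y) := by
  refine le_antisymm ?_ ?_
  · rintro z ⟨a, ha, b, hb, hz⟩
    rw [Order.Ideal.mem_principal] at *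
    exact hz.trans (bez_mul_le_mul ha hb)
  · intro z hz
    rw [Order.Ideal.mem_principal] at hz
    exact ⟨x, Order.Ideal.mem_principal_self, y, Order.Ideal.mem_principal_self, hz⟩

theorem principal_sup (x y : Q) : principal x ⊔ principal y = principal (x ⊔ y) := by
  refine le_antisymm ?_ ?_
  · rintro z ⟨a, ha, b, hb, hz⟩
    rw [Order.Ideal.mem_principal] at *
    exact hz.trans (sup_le_sup ha hb)
  · intro z hz
    rw [Order.Ideal.mem_principal] at hz
    exact ⟨x, Order.Ideal.mem_principal_self, y, Order.Ideal.mem_principal_self, hz⟩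

theorem principal_le_principal {x y : Q} : principal x ≤ principal y ↔ x ≤ y := by
  rw [Order.Ideal.principal_le_iff, Order.Ideal.mem_principal]

theorem principal_inj {x y : Q} (h : principal x = principal y) : x = y :=
  le_antisymm (principal_le_principal.mp h.le) (principal_le_principal.mp h.ge)

theorem isPrincipalElt_principal (e : Q) : IsPrincipalElt (principal e) := by
  constructor
  · intro A B
    rw [residual_eq]
    refine le_antisymm ?_ ?_
    · rintro z ⟨hzA, b, hb, e', he', hz⟩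
      change z ∈ A at hzA
      rw [Order.Ideal.mem_principal] at he'
      have h1 : z ≤ b * e := hz.trans (bez_mul_le_mul le_rfl he')
      obtain ⟨q, hq⟩ := BezQ.div _ _ h1
      have h2 : z = b * q * e := by rw [hq, mul_assoc, mul_comm e q, ← mul_assoc]
      refine ⟨b * q, ⟨?_, ?_⟩, e, Order.Ideal.mem_principal_self, h2.le⟩
      · intro y hy
        rw [Order.Ideal.mem_principal] at hy
        refine A.lower ?_ hzA
        rw [h2]; exact bez_mul_le_mul le_rfl hy
      · exact B.lower (bez_mul_le_left _ _) hb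
    · rintro z ⟨x, ⟨hx1, hx2⟩, y, hy, hz⟩
      refine ⟨A.lower hz (hx1 y hy), ⟨x, hx2, y, hy, hz⟩⟩
  · intro A B
    rw [residual_eq, residual_eq]
    refine le_antisymm ?_ ?_
    · refine sup_le ?_ ?_
      · intro a ha y hy
        exact ⟨a * y, ⟨a, ha, y, hy, le_rfl⟩, ⊥, B.bot_mem, le_sup_left⟩
      · intro b hb y hy
        exact ⟨⊥, (A * principal e).bot_mem, b * y, hb y hy, le_sup_right⟩
    · intro z hz
      obtain ⟨p, ⟨a, ha, e', he', hp⟩, b, hb, hzb⟩ := hz e Order.Ideal.mem_principal_self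
      rw [Order.Ideal.mem_principal] at he'
      have h1 : z * e ≤ a * e ⊔ b :=
        hzb.trans (sup_le_sup (hp.trans (bez_mul_le_mul le_rfl he')) le_rfl)
      obtain ⟨c, hc1, hc2⟩ := BezQ.sel _ _ _ _ h1
      refine ⟨a, ha, c, ?_, hc2⟩
      intro y hy
      rw [Order.Ideal.mem_principal] at hy
      exact B.lower ((bez_mul_le_mul le_rfl hy).trans hc1) hb

/-- The order ideal of all elements lying in the join of finitely many members of `S`. -/
def finJoin (S : Set (Order.Ideal Q)) : Order.Ideal Q where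
  carrier := {z | ∃ T : Set (Order.Ideal Q), T ⊆ S ∧ T.Finite ∧ z ∈ sSup T}
  lower' := by
    rintro a b hba ⟨T, hT, hf, h⟩
    exact ⟨T, hT, hf, (sSup T).lower hba h⟩
  nonempty' := ⟨⊥, ∅, Set.empty_subset _, Set.finite_empty, Order.Ideal.bot_mem _⟩
  directed' := by
    rintro a ⟨T, hT, hf, h⟩ b ⟨T', hT', hf', h'⟩
    refine ⟨a ⊔ b, ⟨T ∪ T', Set.union_subset hT hT', hf.union hf', ?_⟩, le_sup_left, le_sup_right⟩
    exact Order.Ideal.sup_mem ((sSup_le_sSup Set.subset_union_left : sSup T ≤ _) h)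
      ((sSup_le_sSup Set.subset_union_right : sSup T' ≤ _) h')

theorem isCompactElt_principal (e : Q) : IsCompactElt (principal e) := by
  intro S hS
  have h1 : sSup S ≤ finJoin S := by
    refine sSup_le ?_
    intro A hA z hz
    refine ⟨{A}, by simpa using hA, Set.finite_singleton _, ?_⟩
    rw [sSup_singleton]; exact hz
  have h2 : e ∈ finJoin S := h1 (hS Order.Ideal.mem_principal_self)
  obtain ⟨T, hT, hf, h⟩ := h2
  exact ⟨T, hT, hf, Order.Ideal.principal_le_iff.mpr h⟩

theorem eq_sSup_principal (A : Order.Ideal Q) :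
    A = sSup {B | ∃ x ∈ A, B = principal x} := by
  refine le_antisymm ?_ ?_
  · intro x hx
    have : principal x ≤ sSup {B | ∃ x ∈ A, B = principal x} := le_sSup ⟨x, hx, rfl⟩
    exact this Order.Ideal.mem_principal_self
  · refine sSup_le ?_
    rintro _ ⟨x, hx, rfl⟩
    exact Order.Ideal.principal_le_iff.mpr hx

theorem top_eq_principal : (⊤ : Order.Ideal Q) = principal 1 := by
  refine le_antisymm ?_ le_top
  intro x _
  exact Order.Ideal.mem_principal.mpr (BezQ.le_one x)

theorem isDistributive_ideal : IsDistributive (Order.Ideal Q) := by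
  intro A B C
  refine le_antisymm ?_ ?_
  · rintro x ⟨hxA, hx⟩
    obtain ⟨b, hb, c, hc, h⟩ := Order.Ideal.eq_sup_of_le_sup (I := B) (J := C)
      (Classical.choose_spec hx).1
      (Classical.choose_spec (Classical.choose_spec hx).2).1
      (Classical.choose_spec (Classical.choose_spec hx).2).2
    have hbx : b ≤ x := by rw [h]; exact le_sup_left
    have hcx : c ≤ x := by rw [h]; exact le_sup_right
    exact ⟨b, ⟨A.lower hbx hxA, hb⟩, c, ⟨A.lower hcx hxA, hc⟩, h.le⟩
  · exact sup_le (inf_le_inf le_rfl le_sup_left) (inf_le_inf le_rfl le_sup_right)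

theorem isRLattice_ideal : IsRLattice (Order.Ideal Q) := by
  refine ⟨?_, ?_, ?_, ?_⟩
  · intro A B C hAC
    refine le_antisymm ?_ ?_
    · exact le_inf (sup_le_sup le_rfl inf_le_left) (sup_le hAC inf_le_right)
    · have := isDistributive_ideal C A B
      rw [inf_comm (A ⊔ B) C, this]
      refine sup_le (inf_le_right.trans le_sup_left) ?_
      rw [inf_comm C B]; exact le_sup_right
  · intro A
    refine ⟨{B | ∃ x ∈ A, B = principal x}, ?_, eq_sSup_principal A⟩
    rintro _ ⟨x, _, rfl⟩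
    exact isPrincipalElt_principal x
  · intro A
    refine ⟨{B | ∃ x ∈ A, B = principal x}, ?_, eq_sSup_principal A⟩
    rintro _ ⟨x, _, rfl⟩
    exact isCompactElt_principal x
  · rw [top_eq_principal]; exact isCompactElt_principal 1

theorem weakUnion_ideal : WeakUnion (Order.Ideal Q) := by
  intro A B C hAB hAC
  rw [SetLike.not_le_iff_exists] at hAB hAC
  obtain ⟨x, hxA, hxB⟩ := hAB
  obtain ⟨y, hyA, hyC⟩ := hAC
  refine ⟨principal (x ⊔ y), isPrincipalElt_principal _, ?_, ?_, ?_⟩
  · exact Order.Ideal.principal_le_iff.mpr (Order.Ideal.sup_mem hxA hyA)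
  · intro h
    exact hxB (B.lower le_sup_left (Order.Ideal.principal_le_iff.mp h))
  · intro h
    exact hyC (C.lower le_sup_right (Order.Ideal.principal_le_iff.mp h))

/-- A compact element of the lattice of order ideals is principal. -/
theorem exists_eq_principal_of_compact {A : Order.Ideal Q}
    (h : ∀ S : Set (Order.Ideal Q), A ≤ sSup S → ∃ T : Set (Order.Ideal Q), T ⊆ S ∧ T.Finite ∧
      A ≤ sSup T) : ∃ x : Q, A = principal x := by
  obtain ⟨T, hT, hf, hA⟩ := h _ (eq_sSup_principal A).le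
  have key : ∀ T : Set (Order.Ideal Q), T.Finite → T ⊆ {B | ∃ x ∈ A, B = principal x} →
      ∃ x ∈ A, sSup T ≤ principal x := by
    intro T hf
    induction T, hf using Set.Finite.induction_on with
    | empty =>
      intro _
      exact ⟨⊥, A.bot_mem, by simp⟩
    | @insert B T _ _ ih =>
      intro hsub
      obtain ⟨x, hx, hxT⟩ := ih ((Set.subset_insert _ _).trans hsub)
      obtain ⟨y, hy, hyB⟩ := hsub (Set.mem_insert _ _)
      refine ⟨y ⊔ x, Order.Ideal.sup_mem hy hx, ?_⟩
      rw [sSup_insert, ← principal_sup, hyB]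
      exact sup_le_sup le_rfl hxT
  obtain ⟨x, hx, hxT⟩ := key T hf hT
  exact ⟨x, le_antisymm (hA.trans hxT) (Order.Ideal.principal_le_iff.mpr hx)⟩

end Pool.Agent.Helper52.RLat
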