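import Mathlib
import Pool.Agent.Helper52.RLatIdl

/-!
From an isomorphism of the lattice of order ideals of `Q` with the lattice of ideals of a
commutative ring one gets a surjective map `R → Q` behaving like a divisibility map.
-/

namespace Pool.Agent.Helper52.RLat

universe u v

variable {Q : Type u} [DistribLattice Q] [CommMonoid Q] [OrderBot Q] [BezQ Q]

open Order.Ideal (principal)

/-- Complemented pairs of elements separating two given elements. -/
def Splits (Q : Type u) [DistribLattice Q] [CommMonoid Q] [OrderBot Q] : Prop :=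
  ∀ s t : Q, ∃ ε ε' : Q, ε ⊔ ε' = 1 ∧ ε * ε' = ⊥ ∧ s * ε' ≤ t ∧ t * ε ≤ s

/-- A map from a commutative ring to `Q` which looks like the map sending an element to the
principal ideal it generates. -/
structure IsVal (R : Type v) [CommRing R] (w : R → Q) : Prop where
  map_mul : ∀ x y, w (x * y) = w x * w y
  map_add : ∀ x y, w (x + y) ≤ w x ⊔ w y
  map_neg : ∀ x, w (-x) = w x
  dvd : ∀ x y, w x ≤ w y → ∃ z, x = z * y
  map_zero : w 0 = ⊥
  map_one : w 1 = 1
  surj : ∀ s, ∃ x, w x = s

theorem exists_isVal {R : Type v} [CommRing R] (hsp : Splits Q)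
    (f : Order.Ideal Q ≃o Ideal R) (hf : ∀ A B : Order.Ideal Q, f (A * B) = f A * f B) :
    ∃ w : R → Q, IsVal R w := by
  have hcomp : ∀ x : R, ∃ s : Q, f.symm (Ideal.span {x}) = principal s := by
    intro x
    refine exists_eq_principal_of_compact ?_
    intro S hS
    have h1 : Ideal.span {x} ≤ sSup (f '' S) := by
      have := f.monotone hS
      rw [f.apply_symm_apply, map_sSup] at this
      rw [sSup_image]; 
      rw [sSup_image] at this
      exact this
    have hc := (CompleteLattice.isCompactElement_iff_exists_le_sSup_of_le_sSup (Ideal R) _).mp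
      (Submodule.singleton_span_isCompactElement (R := R) (M := R) x)
    obtain ⟨T, hT, hxT⟩ := hc _ h1
    refine ⟨f.symm '' (T : Set (Ideal R)), ?_, T.finite_toSet.image _, ?_⟩
    · rintro _ ⟨A, hA, rfl⟩
      obtain ⟨B, hB, rfl⟩ := hT hA
      rwa [f.symm_apply_apply]
    · have := f.symm.monotone hxT
      refine this.trans ?_
      rw [Finset.sup_id_eq_sSup, map_sSup]
  choose w hw using hcomp
  have hfw : ∀ x : R, f (principal (w x)) = Ideal.span {x} := by
    intro x; rw [← hw x, f.apply_symm_apply]
  have hle : ∀ x y : R, w x ≤ w y ↔ x ∈ Ideal.span {y} := by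
    intro x y
    rw [← principal_le_principal, ← f.le_iff_le, hfw, hfw, Ideal.span_le, Set.singleton_subset_iff]
    rfl
  have hbot : f ⊥ = ⊥ := map_bot f
  have htop : f ⊤ = ⊤ := map_top f
  have hmul : ∀ x y, w (x * y) = w x * w y := by
    intro x y
    apply principal_inj
    apply f.injective
    rw [hfw, ← principal_mul, hf, hfw, hfw, Ideal.span_singleton_mul_span_singleton]
  have hadd : ∀ x y, w (x + y) ≤ w x ⊔ w y := by
    intro x y
    rw [← principal_le_principal, ← f.le_iff_le, ← principal_sup, map_sup, hfw, hfw, hfw,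
      Ideal.span_le, Set.singleton_subset_iff]
    exact Ideal.add_mem _ (Ideal.mem_sup_left (Ideal.mem_span_singleton_self x))
      (Ideal.mem_sup_right (Ideal.mem_span_singleton_self y))
  have hzero : w 0 = ⊥ := by
    apply principal_inj
    apply f.injective
    rw [hfw, Order.Ideal.principal_bot, hbot]
    simp
  have hone : w 1 = 1 := by
    apply principal_inj
    apply f.injective
    rw [hfw, ← top_eq_principal, htop]
    simp
  have hneg : ∀ x, w (-x) = w x := by
    intro x
    apply principal_inj
    apply f.injective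
    rw [hfw, hfw]
    exact Ideal.span_singleton_neg x
  -- binary joins of values are values
  have hsup : ∀ x y : R, ∃ z, w z = w x ⊔ w y := by
    intro x y
    obtain ⟨ε, ε', h1, h2, h3, h4⟩ := hsp (w x) (w y)
    have hsum : f (principal ε) ⊔ f (principal ε') = ⊤ := by
      rw [← map_sup, principal_sup, h1, ← top_eq_principal, htop]
    have hprod : f (principal ε) * f (principal ε') = ⊥ := by
      rw [← hf, principal_mul, h2, Order.Ideal.principal_bot, hbot]
    have h1mem : (1 : R) ∈ f (principal ε) ⊔ f (principal ε') := by rw [hsum]; trivial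
    obtain ⟨e, he, e', he', hee⟩ := Submodule.mem_sup.mp h1mem
    have hee0 : e * e' = 0 := by
      have : e * e' ∈ f (principal ε) * f (principal ε') := Ideal.mul_mem_mul he he'
      rw [hprod] at this
      exact (Submodule.mem_bot R).mp this
    have hwe : w e ≤ ε := by
      rw [← principal_le_principal, ← f.le_iff_le, hfw, Ideal.span_le, Set.singleton_subset_iff]
      exact he
    have hwe' : w e' ≤ ε' := by
      rw [← principal_le_principal, ← f.le_iff_le, hfw, Ideal.span_le, Set.singleton_subset_iff]
      exact he'
    have hwsum : (1 : Q) ≤ w e ⊔ w e' := by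
      rw [← hone, ← hee]; exact hadd _ _
    have hE : w e = ε := by
      refine le_antisymm hwe ?_
      calc ε = ε * 1 := (mul_one _).symm
        _ ≤ ε * (w e ⊔ w e') := bez_mul_le_mul le_rfl hwsum
        _ = ε * w e ⊔ ε * w e' := BezQ.mul_sup' _ _ _
        _ ≤ w e ⊔ ε * ε' := sup_le_sup (bez_mul_le_right _ _) (bez_mul_le_mul le_rfl hwe')
        _ = w e := by rw [h2, sup_bot_eq]
    have hE' : w e' = ε' := by
      refine le_antisymm hwe' ?_
      calc ε' = ε' * 1 := (mul_one _).symm
        _ ≤ ε' * (w e ⊔ w e') := bez_mul_le_mul le_rfl hwsum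
        _ = ε' * w e ⊔ ε' * w e' := BezQ.mul_sup' _ _ _
        _ ≤ ε' * ε ⊔ w e' := sup_le_sup (bez_mul_le_mul le_rfl hwe) (bez_mul_le_right _ _)
        _ = w e' := by rw [mul_comm ε' ε, h2, bot_sup_eq]
    have hee' : e * e = e := by
      have : e * (e + e') = e := by rw [hee, mul_one]
      rw [mul_add, hee0, add_zero] at this
      exact this
    have hee'' : e' * e' = e' := by
      have : e' * (e + e') = e' := by rw [hee, mul_one]
      rw [mul_add, mul_comm e' e, hee0, zero_add] at this
      exact this
    refine ⟨e * x + e' * y, le_antisymm ?_ ?_⟩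
    · refine (hadd _ _).trans ?_
      rw [hmul, hmul]
      exact sup_le_sup (bez_mul_le_right _ _) (bez_mul_le_right _ _)
    · have hz1 : w (e * x) ≤ w (e * x + e' * y) := by
        rw [hle, Ideal.mem_span_singleton]
        refine ⟨e, ?_⟩
        linear_combination (-x) * hee' - y * hee0
      have hz2 : w (e' * y) ≤ w (e * x + e' * y) := by
        rw [hle, Ideal.mem_span_singleton]
        refine ⟨e', ?_⟩
        linear_combination (-y) * hee'' - x * hee0
      rw [hmul, hE] at hz1
      rw [hmul, hE'] at hz2
      have hx : w x ≤ ε * w x ⊔ ε' * w y := by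
        calc w x = w x * (ε ⊔ ε') := by rw [h1, mul_one]
          _ = w x * ε ⊔ w x * ε' := BezQ.mul_sup' _ _ _
          _ ≤ ε * w x ⊔ ε' * w y := by
            refine sup_le_sup (by rw [mul_comm]) ?_
            have hid : ε' = ε' * ε' := by
              have := BezQ.mul_sup' ε' ε ε'
              rw [h1, mul_one, mul_comm ε' ε, h2, bot_sup_eq] at this
              exact this
            calc w x * ε' = (w x * ε') * ε' := by rw [mul_assoc, ← hid]
              _ ≤ w y * ε' := bez_mul_le_mul h3 le_rfl
              _ = ε' * w y := mul_comm _ _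
      have hy : w y ≤ ε * w x ⊔ ε' * w y := by
        calc w y = w y * (ε ⊔ ε') := by rw [h1, mul_one]
          _ = w y * ε ⊔ w y * ε' := BezQ.mul_sup' _ _ _
          _ ≤ ε * w x ⊔ ε' * w y := by
            refine sup_le_sup ?_ (by rw [mul_comm])
            have hid : ε = ε * ε := by
              have := BezQ.mul_sup' ε ε ε'
              rw [h1, mul_one, h2, sup_bot_eq] at this
              exact this
            calc w y * ε = (w y * ε) * ε := by rw [mul_assoc, ← hid]
              _ ≤ w x * ε := bez_mul_le_mul h4 le_rfl
              _ = ε * w x := mul_comm _ _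
      exact (sup_le hx hy).trans (sup_le hz1 hz2)
  refine ⟨w, hmul, hadd, hneg, ?_, hzero, hone, ?_⟩
  · intro x y h
    rw [hle, Ideal.mem_span_singleton] at h
    obtain ⟨z, hz⟩ := h
    exact ⟨z, by rw [hz, mul_comm]⟩
  · intro s
    -- the ideal attached to `s` is finitely generated
    have hfg : ∀ T : Set (Ideal R), T.Finite → T ⊆ {B | ∃ x ∈ f (principal s), B = Ideal.span {x}} →
        ∃ x ∈ f (principal s), sSup T ≤ Ideal.span {x} := by
      intro T hT
      induction T, hT using Set.Finite.induction_on with
      | empty =>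
        intro _
        exact ⟨0, Submodule.zero_mem _, by simp⟩
      | @insert B T _ _ ih =>
        intro hsub
        obtain ⟨x, hx, hxT⟩ := ih ((Set.subset_insert _ _).trans hsub)
        obtain ⟨y, hy, hyB⟩ := hsub (Set.mem_insert _ _)
        obtain ⟨z, hz⟩ := hsup y x
        have hzz : Ideal.span {z} = Ideal.span {y} ⊔ Ideal.span {x} := by
          rw [← hfw, ← hfw, ← hfw, hz, ← principal_sup, map_sup]
        refine ⟨z, ?_, ?_⟩
        · have : Ideal.span {z} ≤ f (principal s) := by
            rw [hzz]
            exact sup_le ((Ideal.span_singleton_le_iff_mem _).mpr hy)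
              ((Ideal.span_singleton_le_iff_mem _).mpr hx)
          exact this (Ideal.mem_span_singleton_self z)
        · rw [sSup_insert, hzz, hyB]
          exact sup_le_sup le_rfl hxT
    have hcov : f (principal s) ≤ sSup {B | ∃ x ∈ f (principal s), B = Ideal.span {x}} := by
      intro x hx
      have : Ideal.span {x} ≤ sSup {B | ∃ x ∈ f (principal s), B = Ideal.span {x}} :=
        le_sSup ⟨x, hx, rfl⟩
      exact this (Ideal.mem_span_singleton_self x)
    have hcov' : principal s ≤ sSup (f.symm '' {B | ∃ x ∈ f (principal s), B = Ideal.span {x}}) := by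
      have := f.symm.monotone hcov
      rw [f.symm_apply_apply, map_sSup] at this
      rw [sSup_image]
      rw [sSup_image] at this
      exact this
    obtain ⟨T, hT, hfin, hsT⟩ := isCompactElt_principal s _ hcov'
    obtain ⟨x, hx, hxT⟩ := hfg (f '' T) (hfin.image _) (by
      rintro _ ⟨A, hA, rfl⟩
      obtain ⟨B, hB, rfl⟩ := hT hA
      rwa [f.apply_symm_apply])
    refine ⟨x, ?_⟩
    apply principal_inj
    apply f.injective
    rw [hfw]
    refine le_antisymm ((Ideal.span_singleton_le_iff_mem _).mpr hx) ?_
    refine (f.monotone hsT).trans ?_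
    rw [map_sSup]
    exact hxT

end Pool.Agent.Helper52.RLat
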