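import Mathlib
import Pool.Agent.Helper52.RLatRep

/-!
The value monoid: the lexicographic plane with a zero, the admissible values at each of the
sixteen levels, and the transition maps.
-/

namespace Pool.Agent.Helper52.RLat

open Classical

/-- The lexicographic plane, written multiplicatively, with a zero. -/
abbrev TT : Type := WithZero (Multiplicative (ℤ ×ₗ ℤ))

/-- The element of `TT` with coordinates `m` and `n`. -/
noncomputable def ee (m n : ℤ) : TT :=
  ((Multiplicative.ofAdd (toLex (m, n)) : Multiplicative (ℤ ×ₗ ℤ)) : TT)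

theorem ee_mul (m n m' n' : ℤ) : ee m n * ee m' n' = ee (m + m') (n + n') := by
  unfold ee
  rw [← WithZero.coe_mul, ← ofAdd_add]
  rfl

theorem ee_ne_zero (m n : ℤ) : ee m n ≠ 0 := WithZero.coe_ne_zero

theorem ee_le {m n m' n' : ℤ} : ee m n ≤ ee m' n' ↔ m < m' ∨ (m = m' ∧ n ≤ n') := by
  unfold ee
  rw [WithZero.coe_le_coe, Multiplicative.ofAdd_le, Prod.Lex.toLex_le_toLex]

theorem ee_inj {m n m' n' : ℤ} : ee m n = ee m' n' ↔ m = m' ∧ n = n' := by
  constructor
  · intro h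
    have h1 := ee_le.mp h.le
    have h2 := ee_le.mp h.ge
    omega
  · rintro ⟨rfl, rfl⟩; rfl

theorem ee_zero : ee 0 0 = 1 := rfl

theorem TT_cases (x : TT) : x = 0 ∨ ∃ m n, x = ee m n := by
  induction x using WithZero.recZeroCoe with
  | zero => exact Or.inl rfl
  | coe y => exact Or.inr ⟨(ofLex (Multiplicative.toAdd y)).1, (ofLex (Multiplicative.toAdd y)).2, rfl⟩

theorem ee_div (m n m' n' : ℤ) : ee m n / ee m' n' = ee (m - m') (n - n') := by
  rw [div_eq_iff (ee_ne_zero _ _), ee_mul, sub_add_cancel, sub_add_cancel]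

theorem ee_le_one {m n : ℤ} : ee m n ≤ 1 ↔ m < 0 ∨ (m = 0 ∧ n ≤ 0) := by
  rw [← ee_zero]; exact ee_le

/-- The levels at which a positive first coordinate is sent to zero. -/
def killm (F : Fin 4 → Prop) : Prop := F 0 ∧ F 1 ∧ F 3

/-- The levels at which the second coordinate is forgotten. -/
def killn (F : Fin 4 → Prop) : Prop := F 2 ∨ (F 1 ∧ ¬ (F 0 ∧ F 3))

/-- The coordinates that are allowed at level `F`. -/
def Good (F : Fin 4 → Prop) (m n : ℤ) : Prop :=
  (m < 0 ∨ (m = 0 ∧ n ≤ 0)) ∧ (killm F → m = 0) ∧ (killn F → n = 0) ∧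
    (¬ killn F → ((¬ F 0 → n = 0) ∧ (¬ F 3 → n = m)))

/-- The values that are allowed at level `F`. -/
def adm (F : Fin 4 → Prop) (x : TT) : Prop := x = 0 ∨ ∃ m n, x = ee m n ∧ Good F m n

/-- The transition map to level `F`. -/
noncomputable def tr (F : Fin 4 → Prop) (x : TT) : TT :=
  WithZero.recZeroCoe (motive := fun _ => TT) 0
    (fun y => if killm F ∧ (ofLex (Multiplicative.toAdd y)).1 < 0 then 0
      else ee (ofLex (Multiplicative.toAdd y)).1
        (if killn F then 0 else (ofLex (Multiplicative.toAdd y)).2)) x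

theorem tr_zero (F : Fin 4 → Prop) : tr F 0 = 0 := rfl

theorem tr_ee (F : Fin 4 → Prop) (m n : ℤ) :
    tr F (ee m n) = if killm F ∧ m < 0 then 0 else ee m (if killn F then 0 else n) := rfl

theorem tr_one (F : Fin 4 → Prop) : tr F 1 = 1 := by
  rw [← ee_zero, tr_ee, if_neg (by simp)]
  simp

theorem adm_zero (F : Fin 4 → Prop) : adm F 0 := Or.inl rfl

theorem adm_one (F : Fin 4 → Prop) : adm F 1 := by
  refine Or.inr ⟨0, 0, ee_zero.symm, ?_⟩
  refine ⟨Or.inr ⟨rfl, le_rfl⟩, fun _ => rfl, fun _ => rfl, fun _ => ⟨fun _ => rfl, fun _ => rfl⟩⟩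

theorem adm_le_one {F : Fin 4 → Prop} {x : TT} (h : adm F x) : x ≤ 1 := by
  rcases h with rfl | ⟨m, n, rfl, h, _⟩
  · exact zero_le_one
  · exact ee_le_one.mpr h

theorem adm_mul {F : Fin 4 → Prop} {x y : TT} (hx : adm F x) (hy : adm F y) : adm F (x * y) := by
  rcases hx with rfl | ⟨m, n, rfl, h1, h2, h3, h4⟩
  · rw [zero_mul]; exact adm_zero F
  rcases hy with rfl | ⟨m', n', rfl, h1', h2', h3', h4'⟩
  · rw [mul_zero]; exact adm_zero F
  refine Or.inr ⟨m + m', n + n', ee_mul _ _ _ _, ?_, ?_, ?_, ?_⟩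
  · omega
  · intro h; have := h2 h; have := h2' h; omega
  · intro h; have := h3 h; have := h3' h; omega
  · intro h
    obtain ⟨a, b⟩ := h4 h
    obtain ⟨a', b'⟩ := h4' h
    exact ⟨fun hh => by rw [a hh, a' hh]; rfl, fun hh => by rw [b hh, b' hh]⟩

theorem adm_max {F : Fin 4 → Prop} {x y : TT} (hx : adm F x) (hy : adm F y) : adm F (x ⊔ y) := by
  rcases le_total x y with h | h
  · rwa [sup_eq_right.mpr h]
  · rwa [sup_eq_left.mpr h]

theorem adm_min {F : Fin 4 → Prop} {x y : TT} (hx : adm F x) (hy : adm F y) : adm F (x ⊓ y) := by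
  rcases le_total x y with h | h
  · rwa [inf_eq_left.mpr h]
  · rwa [inf_eq_right.mpr h]

theorem adm_div {F : Fin 4 → Prop} {x y : TT} (hx : adm F x) (hy : adm F y) (hxy : x ≤ y)
    (hy0 : y ≠ 0) : adm F (x / y) := by
  rcases hx with rfl | ⟨m, n, rfl, h1, h2, h3, h4⟩
  · rw [zero_div]; exact adm_zero F
  rcases hy with rfl | ⟨m', n', rfl, h1', h2', h3', h4'⟩
  · exact absurd rfl hy0
  rw [ee_le] at hxy
  refine Or.inr ⟨m - m', n - n', ee_div _ _ _ _, ?_, ?_, ?_, ?_⟩
  · omega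
  · intro h; have := h2 h; have := h2' h; omega
  · intro h; have := h3 h; have := h3' h; omega
  · intro h
    obtain ⟨a, b⟩ := h4 h
    obtain ⟨a', b'⟩ := h4' h
    exact ⟨fun hh => by rw [a hh, a' hh]; rfl, fun hh => by rw [b hh, b' hh]⟩

theorem killm_mono {F G : Fin 4 → Prop} (h : ∀ r, F r → G r) : killm F → killm G :=
  fun ⟨a, b, c⟩ => ⟨h 0 a, h 1 b, h 3 c⟩

theorem adm_tr {F G : Fin 4 → Prop} (h : ∀ r, F r → G r) {x : TT} (hx : adm F x) :
    adm G (tr G x) := by
  rcases hx with rfl | ⟨m, n, rfl, h1, h2, h3, h4⟩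
  · rw [tr_zero]; exact adm_zero G
  rw [tr_ee]
  split_ifs with hk hn
  · exact adm_zero G
  · refine Or.inr ⟨m, 0, rfl, ?_, ?_, fun _ => rfl, fun hh => absurd hn hh⟩
    · omega
    · intro hm
      by_contra hne
      exact hk ⟨hm, by omega⟩
  · refine Or.inr ⟨m, n, rfl, h1, ?_, fun hh => absurd hh hn, fun _ => ?_⟩
    · intro hm
      by_contra hne
      exact hk ⟨hm, by omega⟩
    · by_cases hF : killn F
      · have hn0 := h3 hF
        refine ⟨fun _ => hn0, fun hG3 => ?_⟩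
        exfalso
        rcases hF with hF2 | ⟨hF1, _⟩
        · exact hn (Or.inl (h 2 hF2))
        · exact hn (Or.inr ⟨h 1 hF1, fun hh => hG3 hh.2⟩)
      · obtain ⟨a, b⟩ := h4 hF
        exact ⟨fun hh => a (fun hf => hh (h 0 hf)), fun hh => b (fun hf => hh (h 3 hf))⟩

theorem tr_tr {F G H : Fin 4 → Prop} (hFG : ∀ r, F r → G r) (hGH : ∀ r, G r → H r) {x : TT}
    (hx : adm F x) : tr H (tr G x) = tr H x := by
  rcases hx with rfl | ⟨m, n, rfl, h1, h2, h3, h4⟩
  · rw [tr_zero, tr_zero]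
  rw [tr_ee G]
  by_cases hk : killm G ∧ m < 0
  · rw [if_pos hk, tr_zero, tr_ee, if_pos ⟨killm_mono hGH hk.1, hk.2⟩]
  · rw [if_neg hk, tr_ee, tr_ee]
    by_cases hk' : killm H ∧ m < 0
    · rw [if_pos hk', if_pos hk']
    · rw [if_neg hk', if_neg hk']
      by_cases hn : killn H
      · rw [if_pos hn, if_pos hn]
      · rw [if_neg hn, if_neg hn]
        by_cases hg : killn G
        · rw [if_pos hg]
          congr 1
          symm
          -- here `G` is inside `{0, 1, 3}` and `H = {0, 1, 3}`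
          have hG2 : ¬ G 2 := fun hh => hn (Or.inl (hGH 2 hh))
          have hG : G 1 ∧ ¬ (G 0 ∧ G 3) := hg.resolve_left hG2
          have hH : killm H := by
            by_contra hne
            exact hn (Or.inr ⟨hGH 1 hG.1, fun hh => hne ⟨hh.1, hGH 1 hG.1, hh.2⟩⟩)
          have hm : m = 0 := by
            by_contra hne
            exact hk' ⟨hH, by omega⟩
          by_cases hF : killn F
          · exact h3 hF
          · obtain ⟨a, b⟩ := h4 hF
            by_cases hF0 : F 0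
            · by_cases hF3 : F 3
              · exact absurd ⟨hFG 0 hF0, hFG 3 hF3⟩ hG.2
              · rw [b hF3, hm]
            · exact a hF0
        · rw [if_neg hg]

theorem tr_id {F : Fin 4 → Prop} {x : TT} (hx : adm F x) : tr F x = x := by
  rcases hx with rfl | ⟨m, n, rfl, h1, h2, h3, h4⟩
  · exact tr_zero F
  rw [tr_ee, if_neg (fun hh => by have := h2 hh.1; omega)]
  by_cases hn : killn F
  · rw [if_pos hn, h3 hn]
  · rw [if_neg hn]

theorem tr_mul (F : Fin 4 → Prop) {x y : TT} (hx : x ≤ 1) (hy : y ≤ 1) :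
    tr F (x * y) = tr F x * tr F y := by
  rcases TT_cases x with rfl | ⟨m, n, rfl⟩
  · rw [zero_mul, tr_zero, zero_mul]
  rcases TT_cases y with rfl | ⟨m', n', rfl⟩
  · rw [mul_zero, tr_zero, mul_zero]
  rw [ee_le_one] at hx hy
  rw [ee_mul, tr_ee, tr_ee, tr_ee]
  by_cases h1 : killm F ∧ m < 0
  · rw [if_pos h1, zero_mul, if_pos ⟨h1.1, by omega⟩]
  · rw [if_neg h1]
    by_cases h2 : killm F ∧ m' < 0
    · rw [if_pos h2, mul_zero, if_pos ⟨h2.1, by omega⟩]
    · rw [if_neg h2, ee_mul, if_neg (by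
        rintro ⟨hk, h3⟩
        have h4 : ¬ m < 0 := fun hh => h1 ⟨hk, hh⟩
        have h5 : ¬ m' < 0 := fun hh => h2 ⟨hk, hh⟩
        omega)]
      split_ifs <;> simp

theorem tr_mono (F : Fin 4 → Prop) {x y : TT} (hxy : x ≤ y) (hy : y ≤ 1) : tr F x ≤ tr F y := by
  rcases TT_cases x with rfl | ⟨m, n, rfl⟩
  · rw [tr_zero]; exact zero_le
  rcases TT_cases y with rfl | ⟨m', n', rfl⟩
  · exact absurd (le_antisymm hxy zero_le) (ee_ne_zero _ _)
  rw [ee_le_one] at hy
  rw [ee_le] at hxy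
  rw [tr_ee, tr_ee]
  by_cases hk : killm F ∧ m < 0
  · rw [if_pos hk]; exact zero_le
  · rw [if_neg hk]
    by_cases hk' : killm F ∧ m' < 0
    · exact absurd ⟨hk'.1, by omega⟩ hk
    · rw [if_neg hk', ee_le]
      split_ifs <;> omega

theorem tr_sup (F : Fin 4 → Prop) {x y : TT} (hx : x ≤ 1) (hy : y ≤ 1) :
    tr F (x ⊔ y) = tr F x ⊔ tr F y := by
  rcases le_total x y with h | h
  · rw [sup_eq_right.mpr h, sup_eq_right.mpr (tr_mono F h hy)]
  · rw [sup_eq_left.mpr h, sup_eq_left.mpr (tr_mono F h hx)]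

theorem tr_inf (F : Fin 4 → Prop) {x y : TT} (hx : x ≤ 1) (hy : y ≤ 1) :
    tr F (x ⊓ y) = tr F x ⊓ tr F y := by
  rcases le_total x y with h | h
  · rw [inf_eq_left.mpr h, inf_eq_left.mpr (tr_mono F h hy)]
  · rw [inf_eq_right.mpr h, inf_eq_right.mpr (tr_mono F h hx)]

end Pool.Agent.Helper52.RLat
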