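import Mathlib
import Pool.Agent.Helper52.RLatVal

/-!
The monoid of finitely determined functions on the cube of `Option I`.
-/

namespace Pool.Agent.Helper52.RLat

open Classical

variable {I : Type}

/-- Points: four optional indices. -/
abbrev Pt (I : Type) : Type := Fin 4 → Option I

/-- The level of a point: the coordinates that are present. -/
def lvl (v : Pt I) : Fin 4 → Prop := fun r => v r ≠ none

/-- Keep only the coordinates in the finite set `J`. -/
noncomputable def res (J : Finset I) (v : Pt I) : Pt I :=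
  fun r => (v r).filter (fun i => decide (i ∈ J))

theorem res_none {J : Finset I} {v : Pt I} {r : Fin 4} (h : v r = none) : res J v r = none := by
  unfold res; rw [h]; rfl

theorem res_mem {J : Finset I} {v : Pt I} {r : Fin 4} {i : I} (h : v r = some i) (hi : i ∈ J) :
    res J v r = some i := by
  unfold res; rw [h, Option.filter_some, if_pos (by simpa using hi)]

theorem res_not_mem {J : Finset I} {v : Pt I} {r : Fin 4} {i : I} (h : v r = some i)
    (hi : i ∉ J) : res J v r = none := by
  unfold res; rw [h, Option.filter_some, if_neg (by simpa using hi)]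

theorem res_res {J K : Finset I} (hJK : J ⊆ K) (v : Pt I) : res J (res K v) = res J v := by
  funext r
  rcases hv : v r with _ | i
  · rw [res_none hv, res_none (res_none hv)]
  · by_cases hJ : i ∈ J
    · rw [res_mem hv hJ, res_mem (res_mem hv (hJK hJ)) hJ]
    · rw [res_not_mem hv hJ]
      by_cases hK : i ∈ K
      · rw [res_not_mem (res_mem hv hK) hJ]
      · rw [res_none (res_not_mem hv hK)]

theorem lvl_res (J : Finset I) (v : Pt I) (r : Fin 4) (h : lvl (res J v) r) : lvl v r :=
  fun hv => h (res_none hv)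

theorem lvl_res_mono {J K : Finset I} (hJK : J ⊆ K) (v : Pt I) (r : Fin 4)
    (h : lvl (res J v) r) : lvl (res K v) r := by
  rw [← res_res hJK] at h
  exact lvl_res _ _ _ h

/-- `f` is admissible. -/
def Adm (f : Pt I → TT) : Prop := ∀ v, adm (lvl v) (f v)

/-- `f` is determined by its values at the points with coordinates in `J`. -/
def Det (J : Finset I) (f : Pt I → TT) : Prop := ∀ v, f v = tr (lvl v) (f (res J v))

theorem Det.mono {J K : Finset I} (hJK : J ⊆ K) {f : Pt I → TT} (hf : Adm f) (h : Det J f) :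
    Det K f := by
  intro v
  rw [h (res K v), res_res hJK, tr_tr (lvl_res_mono hJK v) (lvl_res K v) (hf _)]
  exact h v

/-- The finitely determined function with prescribed values at the points over `J`. -/
noncomputable def ext (J : Finset I) (h : Pt I → TT) : Pt I → TT :=
  fun v => tr (lvl v) (h (res J v))

theorem ext_adm {J : Finset I} {h : Pt I → TT} (hh : ∀ v, adm (lvl (res J v)) (h (res J v))) :
    Adm (ext J h) :=
  fun v => adm_tr (lvl_res J v) (hh v)

theorem ext_res {J : Finset I} {h : Pt I → TT} (hh : ∀ v, adm (lvl (res J v)) (h (res J v)))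
    (v : Pt I) : ext J h (res J v) = h (res J v) := by
  unfold ext
  rw [res_res (Finset.Subset.refl J), tr_id (hh v)]

theorem ext_det {J : Finset I} {h : Pt I → TT} (hh : ∀ v, adm (lvl (res J v)) (h (res J v))) :
    Det J (ext J h) := by
  intro v
  rw [ext_res hh]
  rfl

/-- The admissible finitely determined functions. -/
def InS (f : Pt I → TT) : Prop := Adm f ∧ ∃ J : Finset I, Det J f

theorem adm_mul_fun {f g : Pt I → TT} (hf : Adm f) (hg : Adm g) : Adm (f * g) :=
  fun v => adm_mul (hf v) (hg v)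

theorem adm_sup_fun {f g : Pt I → TT} (hf : Adm f) (hg : Adm g) : Adm (f ⊔ g) :=
  fun v => adm_max (hf v) (hg v)

theorem adm_inf_fun {f g : Pt I → TT} (hf : Adm f) (hg : Adm g) : Adm (f ⊓ g) :=
  fun v => adm_min (hf v) (hg v)

theorem InS.common {f g : Pt I → TT} (hf : InS f) (hg : InS g) :
    ∃ J : Finset I, Det J f ∧ Det J g := by
  obtain ⟨hf1, J, hJ⟩ := hf
  obtain ⟨hg1, K, hK⟩ := hg
  exact ⟨J ∪ K, hJ.mono Finset.subset_union_left hf1, hK.mono Finset.subset_union_right hg1⟩

theorem det_mul {J : Finset I} {f g : Pt I → TT} (hf : Adm f) (hg : Adm g) (hf' : Det J f)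
    (hg' : Det J g) : Det J (f * g) := by
  intro v
  rw [Pi.mul_apply, Pi.mul_apply, tr_mul _ (adm_le_one (hf _)) (adm_le_one (hg _)), ← hf' v,
    ← hg' v]

theorem det_sup {J : Finset I} {f g : Pt I → TT} (hf : Adm f) (hg : Adm g) (hf' : Det J f)
    (hg' : Det J g) : Det J (f ⊔ g) := by
  intro v
  rw [Pi.sup_apply, Pi.sup_apply, tr_sup _ (adm_le_one (hf _)) (adm_le_one (hg _)), ← hf' v,
    ← hg' v]

theorem det_inf {J : Finset I} {f g : Pt I → TT} (hf : Adm f) (hg : Adm g) (hf' : Det J f)
    (hg' : Det J g) : Det J (f ⊓ g) := by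
  intro v
  rw [Pi.inf_apply, Pi.inf_apply, tr_inf _ (adm_le_one (hf _)) (adm_le_one (hg _)), ← hf' v,
    ← hg' v]

theorem InS.mul {f g : Pt I → TT} (hf : InS f) (hg : InS g) : InS (f * g) := by
  obtain ⟨J, h1, h2⟩ := hf.common hg
  exact ⟨adm_mul_fun hf.1 hg.1, J, det_mul hf.1 hg.1 h1 h2⟩

theorem InS.sup {f g : Pt I → TT} (hf : InS f) (hg : InS g) : InS (f ⊔ g) := by
  obtain ⟨J, h1, h2⟩ := hf.common hg
  exact ⟨adm_sup_fun hf.1 hg.1, J, det_sup hf.1 hg.1 h1 h2⟩

theorem InS.inf {f g : Pt I → TT} (hf : InS f) (hg : InS g) : InS (f ⊓ g) := by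
  obtain ⟨J, h1, h2⟩ := hf.common hg
  exact ⟨adm_inf_fun hf.1 hg.1, J, det_inf hf.1 hg.1 h1 h2⟩

theorem inS_one : InS (1 : Pt I → TT) :=
  ⟨fun _ => adm_one _, ∅, fun _ => (tr_one _).symm⟩

theorem inS_zero : InS (0 : Pt I → TT) :=
  ⟨fun _ => adm_zero _, ∅, fun _ => (tr_zero _).symm⟩

/-- The monoid of admissible finitely determined functions. -/
def SS (I : Type) : Type := {f : Pt I → TT // InS f}

noncomputable instance : DistribLattice (SS I) :=
  Subtype.distribLattice (P := InS) (fun _ _ hf hg => hf.sup hg) (fun _ _ hf hg => hf.inf hg)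

noncomputable instance : CommMonoid (SS I) where
  mul f g := ⟨f.1 * g.1, f.2.mul g.2⟩
  mul_assoc f g h := Subtype.ext (mul_assoc f.1 g.1 h.1)
  one := ⟨1, inS_one⟩
  one_mul f := Subtype.ext (one_mul f.1)
  mul_one f := Subtype.ext (mul_one f.1)
  mul_comm f g := Subtype.ext (mul_comm f.1 g.1)

instance : OrderBot (SS I) where
  bot := ⟨0, inS_zero⟩
  bot_le _ := fun _ => zero_le

/-- The element of `SS I` with prescribed values at the points over `J`. -/
noncomputable def mkS (J : Finset I) (h : Pt I → TT)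
    (hh : ∀ v, adm (lvl (res J v)) (h (res J v))) : SS I :=
  ⟨ext J h, ext_adm hh, J, ext_det hh⟩

theorem mkS_apply {J : Finset I} {h : Pt I → TT}
    (hh : ∀ v, adm (lvl (res J v)) (h (res J v))) (v : Pt I) :
    (mkS J h hh).1 v = tr (lvl v) (h (res J v)) := rfl

theorem SS.le_def {f g : SS I} : f ≤ g ↔ ∀ v, f.1 v ≤ g.1 v := Iff.rfl

theorem SS.mul_apply (f g : SS I) (v : Pt I) : (f * g).1 v = f.1 v * g.1 v := rfl

theorem SS.sup_apply (f g : SS I) (v : Pt I) : (f ⊔ g).1 v = f.1 v ⊔ g.1 v := rfl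

theorem SS.one_apply (v : Pt I) : (1 : SS I).1 v = 1 := rfl

theorem SS.bot_apply (v : Pt I) : (⊥ : SS I).1 v = 0 := rfl

theorem SS.ext' {f g : SS I} (h : ∀ v, f.1 v = g.1 v) : f = g := Subtype.ext (funext h)

instance : BezQ (SS I) where
  le_one f := fun v => adm_le_one (f.2.1 v)
  mul_sup' f g h := SS.ext' fun v => by
    change f.1 v * (g.1 v ⊔ h.1 v) = f.1 v * g.1 v ⊔ f.1 v * h.1 v
    rcases le_total (g.1 v) (h.1 v) with h1 | h1
    · rw [sup_eq_right.mpr h1, sup_eq_right.mpr (mul_le_mul_right h1 _)]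
    · rw [sup_eq_left.mpr h1, sup_eq_left.mpr (mul_le_mul_right h1 _)]
  mul_bot' f := SS.ext' fun v => mul_zero (f.1 v)
  div := by
    intro f g hfg
    obtain ⟨J, hf, hg⟩ := f.2.common g.2
    have hh : ∀ v, adm (lvl (res J v))
        ((fun u => if g.1 u = 0 then 0 else f.1 u / g.1 u) (res J v)) := by
      intro v
      dsimp only
      split_ifs with h0
      · exact adm_zero _
      · exact adm_div (f.2.1 _) (g.2.1 _) (hfg _) h0
    refine ⟨mkS J (fun u => if g.1 u = 0 then 0 else f.1 u / g.1 u) hh, SS.ext' fun v => ?_⟩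
    rw [SS.mul_apply, mkS_apply]
    rw [hf v, hg v, ← tr_mul _ (adm_le_one (g.2.1 _)) (adm_le_one (hh v))]
    congr 1
    dsimp only
    split_ifs with h0
    · rw [h0, mul_zero]
      exact le_antisymm (h0 ▸ hfg (res J v)) zero_le
    · rw [mul_div_cancel₀ _ h0]
  sel := by
    intro y a b x hle
    obtain ⟨J₁, hy, ha⟩ := y.2.common a.2
    obtain ⟨J₂, hb, hx⟩ := b.2.common x.2
    have hy' := hy.mono (Finset.subset_union_left (s₂ := J₂)) y.2.1
    have ha' := ha.mono (Finset.subset_union_left (s₂ := J₂)) a.2.1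
    have hb' := hb.mono (Finset.subset_union_right (s₁ := J₁)) b.2.1
    have hx' := hx.mono (Finset.subset_union_right (s₁ := J₁)) x.2.1
    generalize J₁ ∪ J₂ = J at hy' ha' hb' hx'
    have hh : ∀ v, adm (lvl (res J v))
        ((fun u => if y.1 u * x.1 u ≤ b.1 u then y.1 u else 0) (res J v)) := by
      intro v
      dsimp only
      split_ifs with h0
      · exact y.2.1 _
      · exact adm_zero _
    refine ⟨mkS J (fun u => if y.1 u * x.1 u ≤ b.1 u then y.1 u else 0) hh,
      fun v => ?_, fun v => ?_⟩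
    · change (mkS J _ hh).1 v * x.1 v ≤ b.1 v
      rw [mkS_apply]
      rw [hx' v, hb' v, ← tr_mul _ (adm_le_one (hh v)) (adm_le_one (x.2.1 _))]
      refine tr_mono _ ?_ (adm_le_one (b.2.1 _))
      dsimp only
      split_ifs with h0
      · exact h0
      · rw [zero_mul]; exact zero_le
    · change y.1 v ≤ a.1 v ⊔ (mkS J _ hh).1 v
      rw [mkS_apply]
      rw [hy' v, ha' v, ← tr_sup _ (adm_le_one (a.2.1 _)) (adm_le_one (hh v))]
      refine tr_mono _ ?_ (adm_le_one (adm_max (a.2.1 _) (hh v)))
      dsimp only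
      split_ifs with h0
      · exact le_sup_right
      · refine le_trans ?_ le_sup_left
        rw [not_le] at h0
        have h1 : y.1 (res J v) * x.1 (res J v) ≤ a.1 (res J v) * x.1 (res J v) ⊔
          b.1 (res J v) := hle (res J v)
        have h2 : y.1 (res J v) * x.1 (res J v) ≤ a.1 (res J v) * x.1 (res J v) := by
          rcases le_sup_iff.mp h1 with h | h
          · exact h
          · exact absurd h (not_le.mpr h0)
        have hx0 : x.1 (res J v) ≠ 0 := by
          intro h
          rw [h, mul_zero] at h0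
          exact absurd h0 (not_lt.mpr zero_le)
        exact le_of_mul_le_mul_right h2 (zero_lt_iff.mpr hx0)

theorem splits_SS : Splits (SS I) := by
  intro s t
  obtain ⟨J, hs, ht⟩ := s.2.common t.2
  have hh : ∀ v, adm (lvl (res J v))
      ((fun u => if t.1 u ≤ s.1 u then 1 else 0) (res J v)) := by
    intro v
    dsimp only
    split_ifs
    · exact adm_one _
    · exact adm_zero _
  have hh' : ∀ v, adm (lvl (res J v))
      ((fun u => if t.1 u ≤ s.1 u then 0 else 1) (res J v)) := by
    intro v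
    dsimp only
    split_ifs
    · exact adm_zero _
    · exact adm_one _
  refine ⟨mkS J (fun u => if t.1 u ≤ s.1 u then 1 else 0) hh,
    mkS J (fun u => if t.1 u ≤ s.1 u then 0 else 1) hh',
    SS.ext' fun v => ?_, SS.ext' fun v => ?_, fun v => ?_, fun v => ?_⟩
  · rw [SS.sup_apply, mkS_apply, mkS_apply, SS.one_apply]
    split_ifs
    · rw [tr_one, tr_zero]; exact sup_eq_left.mpr zero_le
    · rw [tr_one, tr_zero]; exact sup_eq_right.mpr zero_le
  · rw [SS.mul_apply, mkS_apply, mkS_apply, SS.bot_apply]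
    split_ifs
    · rw [tr_zero, mul_zero]
    · rw [tr_zero, zero_mul]
  · change s.1 v * (mkS J _ hh').1 v ≤ t.1 v
    rw [mkS_apply]
    split_ifs with h0
    · rw [tr_zero, mul_zero]; exact zero_le
    · rw [tr_one, mul_one, hs v, ht v]
      exact tr_mono _ (le_of_not_ge h0) (adm_le_one (t.2.1 _))
  · change t.1 v * (mkS J _ hh).1 v ≤ s.1 v
    rw [mkS_apply]
    split_ifs with h0
    · rw [tr_one, mul_one, hs v, ht v]
      exact tr_mono _ h0 (adm_le_one (s.2.1 _))
    · rw [tr_zero, mul_zero]; exact zero_le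

end Pool.Agent.Helper52.RLat
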