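import Mathlib
import Pool.Agent.Helper52.RLatFun

/-!
No commutative ring has a divisibility map onto `SS I` when `I` is large.
-/

namespace Pool.Agent.Helper52.RLat

open Classical Cardinal

/-! ### Avoiding finite sets -/

theorem exists_avoid {X Y I : Type} [Infinite X] (hXY : #X < #Y) (e : Y → I)
    (he : Function.Injective e) (G : X → Finset I) : ∃ y, ∀ x, e y ∉ G x := by
  by_contra! h
  have h1 : Set.range e ⊆ ⋃ x, ((G x : Finset I) : Set I) := by
    rintro _ ⟨y, rfl⟩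
    obtain ⟨x, hx⟩ := h y
    exact Set.mem_iUnion.mpr ⟨x, hx⟩
  have h2 : #Y ≤ #X := by
    calc #Y = #(Set.range e) := (Cardinal.mk_range_eq e he).symm
      _ ≤ #(⋃ x, ((G x : Finset I) : Set I)) := Cardinal.mk_le_mk_of_subset h1
      _ ≤ #X * ⨆ x, #((G x : Finset I) : Set I) := Cardinal.mk_iUnion_le _
      _ ≤ #X * ℵ₀ := by
        refine mul_le_mul' le_rfl (ciSup_le' fun x => ?_)
        exact (Cardinal.lt_aleph0_of_finite _).le
      _ = #X := Cardinal.mul_aleph0_eq (Cardinal.infinite_iff.mp inferInstance)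
  exact absurd hXY (not_lt.mpr h2)

/-- A large index set. -/
abbrev Big : Type := Set (Set (Set ℕ))

theorem mk_prod_eq {A B : Type} [Nonempty A] [Infinite B] (h : #A ≤ #B) : #(A × B) = #B := by
  rw [Cardinal.mk_prod, Cardinal.lift_id, Cardinal.lift_id]
  exact Cardinal.mul_eq_right (Cardinal.infinite_iff.mp inferInstance) h
    (Cardinal.mk_ne_zero A)

theorem mk_lt_set (A : Type) : #A < #(Set A) := by
  rw [Cardinal.mk_set]; exact Cardinal.cantor _

theorem exists_free (A01 A13 A03 : Big → Big → Finset Big)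
    (A013 A012 A023 A123 : Big → Big → Big → Finset Big) :
    ∃ i0 i1 i2 i3 : Big, i3 ∉ A01 i0 i1 ∧ i0 ∉ A13 i1 i3 ∧ i1 ∉ A03 i0 i3 ∧
      i2 ∉ A013 i0 i1 i3 ∧ i3 ∉ A012 i0 i1 i2 ∧ i1 ∉ A023 i0 i2 i3 ∧ i0 ∉ A123 i1 i2 i3 := by
  have hs : ∀ A : Type, Function.Injective (fun a : A => ({a} : Set A)) :=
    fun A => Set.singleton_injective
  let e2 : Set (Set ℕ) → Big := fun a => {a}
  let e1 : Set ℕ → Big := fun a => {{a}}
  let e0 : ℕ → Big := fun a => {{{a}}}
  have he2 : Function.Injective e2 := hs _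
  have he1 : Function.Injective e1 := (hs (Set (Set ℕ))).comp (hs (Set ℕ))
  have he0 : Function.Injective e0 :=
    (hs (Set (Set ℕ))).comp ((hs (Set ℕ)).comp (hs ℕ))
  have c1 : #(ℕ × Set ℕ) = #(Set ℕ) := mk_prod_eq (mk_lt_set ℕ).le
  have c2 : #((ℕ × Set ℕ) × Set (Set ℕ)) = #(Set (Set ℕ)) :=
    mk_prod_eq (c1.le.trans (mk_lt_set _).le)
  have d2 : #((ℕ × Set ℕ) × Set (Set ℕ)) < #Big := by rw [c2]; exact mk_lt_set _
  have d1 : #(ℕ × Set ℕ) < #(Set (Set ℕ)) := by rw [c1]; exact mk_lt_set _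
  obtain ⟨i3, h3⟩ := exists_avoid d2 (id : Big → Big) Function.injective_id
    (fun p => A01 (e0 p.1.1) (e1 p.1.2) ∪ A012 (e0 p.1.1) (e1 p.1.2) (e2 p.2))
  obtain ⟨b2, h2⟩ := exists_avoid d1 e2 he2 (fun p => A013 (e0 p.1) (e1 p.2) i3)
  obtain ⟨b1, h1⟩ := exists_avoid (mk_lt_set ℕ) e1 he1
    (fun n => A03 (e0 n) i3 ∪ A023 (e0 n) (e2 b2) i3)
  obtain ⟨i0', hi0', hfree⟩ := (Set.infinite_range_of_injective he0).exists_notMem_finset
    (A13 (e1 b1) i3 ∪ A123 (e1 b1) (e2 b2) i3)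
  obtain ⟨n, rfl⟩ := hi0'
  have h3' := h3 ((n, b1), b2)
  have h2' := h2 (n, b1)
  have h1' := h1 n
  simp only [Finset.mem_union, not_or, id] at h3' h1' hfree
  exact ⟨e0 n, e1 b1, e2 b2, i3, h3'.1, hfree.1, h1'.1, h2', h3'.2, h1'.2, hfree.2⟩

/-! ### The generators -/

/-- The value attached to the `r`-th coordinate. -/
noncomputable def gen (r : Fin 4) : TT := if r = 0 then ee (-1) (-1) else ee (-1) 0

theorem gen_le {r s : Fin 4} (hs : s ≠ 0) : gen r ≤ gen s := by
  unfold gen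
  rw [if_neg hs]
  split_ifs
  · rw [ee_le]; omega
  · exact le_rfl

theorem adm_gen (r : Fin 4) : adm (fun s => s = r) (gen r) := by
  unfold gen
  split_ifs with h
  · subst h
    refine Or.inr ⟨-1, -1, rfl, Or.inl (by norm_num), ?_, ?_, ?_⟩
    · rintro ⟨_, h, _⟩; exact absurd h (by decide)
    · rintro (h | ⟨h, _⟩) <;> exact absurd h (by decide)
    · intro _; exact ⟨fun h => absurd rfl h, fun _ => rfl⟩
  · refine Or.inr ⟨-1, 0, rfl, Or.inl (by norm_num), ?_, fun _ => rfl, ?_⟩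
    · rintro ⟨h0, _⟩; exact absurd h0.symm h
    · intro hk
      refine ⟨fun _ => rfl, fun h3 => ?_⟩
      exfalso
      apply hk
      fin_cases r
      · exact absurd rfl h
      · exact Or.inr ⟨rfl, fun hh => absurd hh.1 (by decide)⟩
      · exact Or.inl rfl
      · exact absurd rfl h3

theorem tr_ee_n {F : Fin 4 → Prop} (hk : ¬ killm F) (hn : killn F) (m n : ℤ) :
    tr F (ee m n) = ee m 0 := by
  rw [tr_ee, if_neg (fun hh => hk hh.1), if_pos hn]

theorem tr_ee_id {F : Fin 4 → Prop} (hk : ¬ killm F) (hn : ¬ killn F) (m n : ℤ) :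
    tr F (ee m n) = ee m n := by
  rw [tr_ee, if_neg (fun hh => hk hh.1), if_neg hn]

theorem adm_tr_gen {F : Fin 4 → Prop} {r : Fin 4} (h : F r) : adm F (tr F (gen r)) :=
  adm_tr (fun _ hs => hs ▸ h) (adm_gen r)

variable {I : Type}

theorem eps_adm (r : Fin 4) (i : I) (v : Pt I) : adm (lvl (res {i} v))
    ((fun u : Pt I => if u r = some i then (1 : TT) else 0) (res {i} v)) := by
  dsimp only
  split_ifs
  · exact adm_one _
  · exact adm_zero _

/-- The indicator function of the points with `r`-th coordinate `i`. -/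
noncomputable def eps (r : Fin 4) (i : I) : SS I :=
  mkS {i} (fun u => if u r = some i then 1 else 0) (eps_adm r i)

theorem eps_apply {r : Fin 4} {i : I} {v : Pt I} (h : v r = some i) : (eps r i).1 v = 1 := by
  unfold eps
  rw [mkS_apply, if_pos (res_mem h (Finset.mem_singleton_self i)), tr_one]

theorem eps_apply' {r : Fin 4} {i : I} {v : Pt I} (h : v r ≠ some i) : (eps r i).1 v = 0 := by
  unfold eps
  rw [mkS_apply, if_neg, tr_zero]
  intro h'
  rcases hv : v r with _ | j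
  · rw [res_none hv] at h'; exact absurd h' (by simp)
  · by_cases hj : j ∈ ({i} : Finset I)
    · rw [Finset.mem_singleton] at hj
      exact h (hj ▸ hv)
    · rw [res_not_mem hv hj] at h'; exact absurd h' (by simp)

theorem alp_adm (r : Fin 4) (i : I) (v : Pt I) : adm (lvl (res {i} v))
    ((fun u : Pt I => if u r = some i then tr (lvl u) (gen r) else 1) (res {i} v)) := by
  dsimp only
  split_ifs with h
  · refine adm_tr_gen ?_
    intro hn
    rw [hn] at h
    exact absurd h (by simp)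
  · exact adm_one _

/-- The element attached to the index `i` in position `r`. -/
noncomputable def alp (r : Fin 4) (i : I) : SS I :=
  mkS {i} (fun u => if u r = some i then tr (lvl u) (gen r) else 1) (alp_adm r i)

theorem alp_apply {r : Fin 4} {i : I} {v : Pt I} (h : v r = some i) :
    (alp r i).1 v = tr (lvl v) (gen r) := by
  unfold alp
  have hr := res_mem h (Finset.mem_singleton_self i)
  rw [mkS_apply, if_pos hr]
  refine tr_tr ?_ (lvl_res _ _) (adm_gen r)
  rintro s rfl hn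
  rw [hn] at hr
  exact absurd hr (by simp)

/-! ### The contradiction -/

section ring

variable {R : Type*} [CommRing R] {w : R → SS I}

theorem exists_ratio (hw : IsVal R w) {e a : Fin 4 → I → R} (he : ∀ r i, w (e r i) = eps r i)
    (ha : ∀ r i, w (a r i) = alp r i) (r s : Fin 4) (hs : s ≠ 0) (i j : I) :
    ∃ x : R, e r i * e s j * a r i = x * (e r i * e s j * a s j) := by
  apply hw.dvd
  rw [hw.map_mul, hw.map_mul, hw.map_mul, hw.map_mul, he, he, ha, ha]
  intro v
  change (eps r i).1 v * (eps s j).1 v * (alp r i).1 v ≤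
    (eps r i).1 v * (eps s j).1 v * (alp s j).1 v
  by_cases hi : v r = some i
  · by_cases hj : v s = some j
    · rw [eps_apply hi, eps_apply hj, alp_apply hi, alp_apply hj, one_mul, one_mul, one_mul]
      refine tr_mono _ (gen_le hs) ?_
      unfold gen
      rw [if_neg hs, ee_le_one]
      omega
    · rw [eps_apply' hj, mul_zero, zero_mul, zero_mul]
  · rw [eps_apply' hi, zero_mul, zero_mul, zero_mul]

theorem ratio_apply (hw : IsVal R w) {e a : Fin 4 → I → R} (he : ∀ r i, w (e r i) = eps r i)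
    (ha : ∀ r i, w (a r i) = alp r i) {r s : Fin 4} {i j : I} {x : R}
    (hx : e r i * e s j * a r i = x * (e r i * e s j * a s j)) {v : Pt I}
    (hi : v r = some i) (hj : v s = some j) :
    (w x).1 v * tr (lvl v) (gen s) = tr (lvl v) (gen r) := by
  have h := congrArg (fun y => (w y).1 v) hx
  simp only [hw.map_mul, he, ha, SS.mul_apply, eps_apply hi, eps_apply hj, alp_apply hi,
    alp_apply hj, one_mul] at h
  exact h.symm

theorem triple_apply (hw : IsVal R w) {e a : Fin 4 → I → R} (he : ∀ r i, w (e r i) = eps r i)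
    (ha : ∀ r i, w (a r i) = alp r i) {r s q : Fin 4} {i j k : I} {x y z : R}
    (hx : e r i * e s j * a r i = x * (e r i * e s j * a s j))
    (hy : e s j * e q k * a s j = y * (e s j * e q k * a q k))
    (hz : e r i * e q k * a r i = z * (e r i * e q k * a q k)) {v : Pt I}
    (hi : v r = some i) (hj : v s = some j) (hk : v q = some k) :
    tr (lvl v) (gen q) * (w (x * y - z)).1 v = 0 := by
  have h0 : e r i * e s j * e q k * a q k * (x * y - z) = 0 := by
    linear_combination (-(e r i) * x) * hy + (-(e q k)) * hx + e s j * hz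
  have h := congrArg (fun y => (w y).1 v) h0
  simp only [hw.map_mul, hw.map_zero, he, ha, SS.mul_apply, eps_apply hi, eps_apply hj,
    eps_apply hk, alp_apply hk, one_mul, SS.bot_apply] at h
  exact h

end ring

/-- Four optional coordinates. -/
def pt (a b c d : Option I) : Pt I := ![a, b, c, d]

theorem lvl_pt0 (a b c d : Option I) : lvl (pt a b c d) 0 ↔ a ≠ none := Iff.rfl
theorem lvl_pt1 (a b c d : Option I) : lvl (pt a b c d) 1 ↔ b ≠ none := Iff.rfl
theorem lvl_pt2 (a b c d : Option I) : lvl (pt a b c d) 2 ↔ c ≠ none := Iff.rfl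
theorem lvl_pt3 (a b c d : Option I) : lvl (pt a b c d) 3 ↔ d ≠ none := Iff.rfl

theorem res_pt (J : Finset I) (a b c d : Option I) :
    res J (pt a b c d) = pt (a.filter (fun i => decide (i ∈ J)))
      (b.filter (fun i => decide (i ∈ J))) (c.filter (fun i => decide (i ∈ J)))
      (d.filter (fun i => decide (i ∈ J))) := by
  funext r
  fin_cases r <;> rfl

theorem filter_in {J : Finset I} {i : I} (h : i ∈ J) :
    (some i).filter (fun i => decide (i ∈ J)) = some i := by
  rw [Option.filter_some, if_pos (by simpa using h)]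

theorem filter_out {J : Finset I} {i : I} (h : i ∉ J) :
    (some i).filter (fun i => decide (i ∈ J)) = none := by
  rw [Option.filter_some, if_neg (by simpa using h)]

theorem filter_no {J : Finset I} :
    (none : Option I).filter (fun i => decide (i ∈ J)) = none := rfl

theorem no_isVal {R : Type*} [CommRing R] (w : R → SS Big) (hw : IsVal R w) : False := by
  choose e he using fun (r : Fin 4) (i : Big) => hw.surj (eps r i)
  choose a ha using fun (r : Fin 4) (i : Big) => hw.surj (alp r i)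
  choose X hX using fun (r s : Fin 4) (hs : s ≠ 0) (i j : Big) =>
    exists_ratio hw he ha r s hs i j
  choose Jof hJof using fun x : R => (w x).2.2
  let B (x : R) (l : Finset Big) : Finset Big := Jof x ∪ l
  have hB : ∀ x l, Det (B x l) (w x).1 := fun x l =>
    (hJof x : Det (Jof x) (w x).1).mono Finset.subset_union_left (w x).2.1
  have h1 : (1 : Fin 4) ≠ 0 := by decide
  have h2 : (2 : Fin 4) ≠ 0 := by decide
  have h3 : (3 : Fin 4) ≠ 0 := by decide
  obtain ⟨i0, i1, i2, i3, c1, c2, c3, c4, c5, c6, c7⟩ := exists_free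
    (fun i0 i1 => B (X 0 1 h1 i0 i1) {i0, i1})
    (fun i1 i3 => B (X 1 3 h3 i1 i3) {i1, i3})
    (fun i0 i3 => B (X 0 3 h3 i0 i3) {i0, i3})
    (fun i0 i1 i3 => B (X 0 1 h1 i0 i1 * X 1 3 h3 i1 i3 - X 0 3 h3 i0 i3) {i0, i1, i3})
    (fun i0 i1 i2 => B (X 0 1 h1 i0 i1 * X 1 2 h2 i1 i2 - X 0 2 h2 i0 i2) {i0, i1, i2})
    (fun i0 i2 i3 => B (X 0 2 h2 i0 i2 * X 2 3 h3 i2 i3 - X 0 3 h3 i0 i3) {i0, i2, i3})
    (fun i1 i2 i3 => B (X 1 2 h2 i1 i2 * X 2 3 h3 i2 i3 - X 1 3 h3 i1 i3) {i1, i2, i3})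
  -- membership facts
  have m : ∀ (x : R) (l : Finset Big) (i : Big), i ∈ l → i ∈ B x l := fun x l i hi =>
    Finset.mem_union_right _ hi
  -- the three ratios at the point `(i0, i1, -, i3)`
  have v01 : (w (X 0 1 h1 i0 i1)).1 (pt (some i0) (some i1) none (some i3)) = 1 := by
    rw [hB (X 0 1 h1 i0 i1) {i0, i1}, res_pt, filter_in (m _ _ _ (by simp)),
      filter_in (m _ _ _ (by simp)), filter_no, filter_out c1]
    have hr := ratio_apply hw he ha (hX 0 1 h1 i0 i1) (v := pt (some i0) (some i1) none none)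
      rfl rfl
    have hk : ¬ killm (lvl (pt (some i0) (some i1) none none)) := by
      rintro ⟨_, _, h⟩; exact h rfl
    have hn : killn (lvl (pt (some i0) (some i1) none none)) := by
      refine Or.inr ⟨by simp [lvl, pt], ?_⟩
      rintro ⟨_, h⟩; exact h rfl
    have hg0 : gen 0 = ee (-1) (-1) := if_pos rfl
    have hg1 : gen 1 = ee (-1) 0 := if_neg h1
    rw [hg0, hg1, tr_ee_n hk hn, tr_ee_n hk hn] at hr
    have : (w (X 0 1 h1 i0 i1)).1 (pt (some i0) (some i1) none none) = 1 :=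
      mul_right_cancel₀ (ee_ne_zero (-1) 0) (by rw [hr, one_mul])
    rw [this, tr_one]
  have v13 : (w (X 1 3 h3 i1 i3)).1 (pt (some i0) (some i1) none (some i3)) = 1 := by
    rw [hB (X 1 3 h3 i1 i3) {i1, i3}, res_pt, filter_out c2, filter_in (m _ _ _ (by simp)),
      filter_no, filter_in (m _ _ _ (by simp))]
    have hr := ratio_apply hw he ha (hX 1 3 h3 i1 i3) (v := pt none (some i1) none (some i3))
      rfl rfl
    have hk : ¬ killm (lvl (pt none (some i1) none (some i3))) := by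
      rintro ⟨h, _⟩; exact h rfl
    have hn : killn (lvl (pt none (some i1) none (some i3))) := by
      refine Or.inr ⟨by simp [lvl, pt], ?_⟩
      rintro ⟨h, _⟩; exact h rfl
    have hg1 : gen 1 = ee (-1) 0 := if_neg h1
    have hg3 : gen 3 = ee (-1) 0 := if_neg h3
    rw [hg1, hg3, tr_ee_n hk hn] at hr
    have : (w (X 1 3 h3 i1 i3)).1 (pt none (some i1) none (some i3)) = 1 :=
      mul_right_cancel₀ (ee_ne_zero (-1) 0) (by rw [hr, one_mul])
    rw [this, tr_one]
  have v03 : (w (X 0 3 h3 i0 i3)).1 (pt (some i0) (some i1) none (some i3)) = ee 0 (-1) := by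
    rw [hB (X 0 3 h3 i0 i3) {i0, i3}, res_pt, filter_in (m _ _ _ (by simp)), filter_out c3,
      filter_no, filter_in (m _ _ _ (by simp))]
    have hr := ratio_apply hw he ha (hX 0 3 h3 i0 i3) (v := pt (some i0) none none (some i3))
      rfl rfl
    have hk : ¬ killm (lvl (pt (some i0) none none (some i3))) := by
      rintro ⟨_, h, _⟩; exact h rfl
    have hn : ¬ killn (lvl (pt (some i0) none none (some i3))) := by
      rintro (h | ⟨h, _⟩) <;> exact h rfl
    have hg0 : gen 0 = ee (-1) (-1) := if_pos rfl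
    have hg3 : gen 3 = ee (-1) 0 := if_neg h3
    rw [hg0, hg3, tr_ee_id hk hn, tr_ee_id hk hn] at hr
    have : (w (X 0 3 h3 i0 i3)).1 (pt (some i0) none none (some i3)) = ee 0 (-1) :=
      mul_right_cancel₀ (ee_ne_zero (-1) 0) (by rw [hr, ee_mul]; norm_num)
    rw [this, tr_ee, if_neg (fun hh => by omega), if_neg]
    rintro (h | ⟨_, h⟩)
    · exact h rfl
    · exact h ⟨by simp [lvl, pt], by simp [lvl, pt]⟩
  -- the value of the fourth difference at the full point is one
  have k013 : (w (X 0 1 h1 i0 i1 * X 1 3 h3 i1 i3 - X 0 3 h3 i0 i3)).1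
      (pt (some i0) (some i1) (some i2) (some i3)) = 1 := by
    rw [hB (X 0 1 h1 i0 i1 * X 1 3 h3 i1 i3 - X 0 3 h3 i0 i3) {i0, i1, i3}, res_pt,
      filter_in (m _ _ _ (by simp)), filter_in (m _ _ _ (by simp)), filter_out c4,
      filter_in (m _ _ _ (by simp))]
    have hadd := hw.map_add (X 0 1 h1 i0 i1 * X 1 3 h3 i1 i3 - X 0 3 h3 i0 i3)
      (X 0 3 h3 i0 i3) (pt (some i0) (some i1) none (some i3))
    rw [sub_add_cancel, hw.map_mul] at hadd
    change (w (X 0 1 h1 i0 i1)).1 _ * (w (X 1 3 h3 i1 i3)).1 _ ≤ (w _).1 _ ⊔ (w _).1 _ at hadd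
    rw [v01, v13, v03, one_mul] at hadd
    have hE : (1 : TT) ≤ (w (X 0 1 h1 i0 i1 * X 1 3 h3 i1 i3 - X 0 3 h3 i0 i3)).1
        (pt (some i0) (some i1) none (some i3)) := by
      rcases le_sup_iff.mp hadd with h | h
      · exact h
      · rw [← ee_zero, ee_le] at h
        omega
    rw [le_antisymm (adm_le_one ((w _).2.1 _)) hE, tr_one]
  -- the other three differences vanish at the full point
  have k012 : (w (X 0 1 h1 i0 i1 * X 1 2 h2 i1 i2 - X 0 2 h2 i0 i2)).1
      (pt (some i0) (some i1) (some i2) (some i3)) = 0 := by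
    rw [hB (X 0 1 h1 i0 i1 * X 1 2 h2 i1 i2 - X 0 2 h2 i0 i2) {i0, i1, i2}, res_pt,
      filter_in (m _ _ _ (by simp)), filter_in (m _ _ _ (by simp)),
      filter_in (m _ _ _ (by simp)), filter_out c5]
    have ht := triple_apply hw he ha (hX 0 1 h1 i0 i1) (hX 1 2 h2 i1 i2) (hX 0 2 h2 i0 i2)
      (v := pt (some i0) (some i1) (some i2) none) rfl rfl rfl
    have hg2 : gen 2 = ee (-1) 0 := if_neg h2
    rw [hg2, tr_ee, if_neg (by rintro ⟨⟨_, _, h⟩, _⟩; exact h rfl)] at ht
    rw [(mul_eq_zero.mp ht).resolve_left (ee_ne_zero _ _), tr_zero]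
  have k023 : (w (X 0 2 h2 i0 i2 * X 2 3 h3 i2 i3 - X 0 3 h3 i0 i3)).1
      (pt (some i0) (some i1) (some i2) (some i3)) = 0 := by
    rw [hB (X 0 2 h2 i0 i2 * X 2 3 h3 i2 i3 - X 0 3 h3 i0 i3) {i0, i2, i3}, res_pt,
      filter_in (m _ _ _ (by simp)), filter_out c6, filter_in (m _ _ _ (by simp)),
      filter_in (m _ _ _ (by simp))]
    have ht := triple_apply hw he ha (hX 0 2 h2 i0 i2) (hX 2 3 h3 i2 i3) (hX 0 3 h3 i0 i3)
      (v := pt (some i0) none (some i2) (some i3)) rfl rfl rfl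
    have hg3 : gen 3 = ee (-1) 0 := if_neg h3
    rw [hg3, tr_ee, if_neg (by rintro ⟨⟨_, h, _⟩, _⟩; exact h rfl)] at ht
    rw [(mul_eq_zero.mp ht).resolve_left (ee_ne_zero _ _), tr_zero]
  have k123 : (w (X 1 2 h2 i1 i2 * X 2 3 h3 i2 i3 - X 1 3 h3 i1 i3)).1
      (pt (some i0) (some i1) (some i2) (some i3)) = 0 := by
    rw [hB (X 1 2 h2 i1 i2 * X 2 3 h3 i2 i3 - X 1 3 h3 i1 i3) {i1, i2, i3}, res_pt,
      filter_out c7, filter_in (m _ _ _ (by simp)), filter_in (m _ _ _ (by simp)),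
      filter_in (m _ _ _ (by simp))]
    have ht := triple_apply hw he ha (hX 1 2 h2 i1 i2) (hX 2 3 h3 i2 i3) (hX 1 3 h3 i1 i3)
      (v := pt none (some i1) (some i2) (some i3)) rfl rfl rfl
    have hg3 : gen 3 = ee (-1) 0 := if_neg h3
    rw [hg3, tr_ee, if_neg (by rintro ⟨⟨h, _⟩, _⟩; exact h rfl)] at ht
    rw [(mul_eq_zero.mp ht).resolve_left (ee_ne_zero _ _), tr_zero]
  -- the algebraic identity
  have hid : X 0 1 h1 i0 i1 * X 1 3 h3 i1 i3 - X 0 3 h3 i0 i3 =
      -(X 0 1 h1 i0 i1 * (X 1 2 h2 i1 i2 * X 2 3 h3 i2 i3 - X 1 3 h3 i1 i3)) +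
      ((X 0 1 h1 i0 i1 * X 1 2 h2 i1 i2 - X 0 2 h2 i0 i2) * X 2 3 h3 i2 i3 +
      (X 0 2 h2 i0 i2 * X 2 3 h3 i2 i3 - X 0 3 h3 i0 i3)) := by ring
  have hfin := hw.map_add
    (-(X 0 1 h1 i0 i1 * (X 1 2 h2 i1 i2 * X 2 3 h3 i2 i3 - X 1 3 h3 i1 i3)))
    ((X 0 1 h1 i0 i1 * X 1 2 h2 i1 i2 - X 0 2 h2 i0 i2) * X 2 3 h3 i2 i3 +
      (X 0 2 h2 i0 i2 * X 2 3 h3 i2 i3 - X 0 3 h3 i0 i3))
    (pt (some i0) (some i1) (some i2) (some i3))
  have hfin2 := hw.map_add
    ((X 0 1 h1 i0 i1 * X 1 2 h2 i1 i2 - X 0 2 h2 i0 i2) * X 2 3 h3 i2 i3)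
      (X 0 2 h2 i0 i2 * X 2 3 h3 i2 i3 - X 0 3 h3 i0 i3)
    (pt (some i0) (some i1) (some i2) (some i3))
  rw [← hid, hw.map_neg, hw.map_mul] at hfin
  rw [hw.map_mul] at hfin2
  change (w _).1 _ ≤ ((w _).1 _ * (w _).1 _) ⊔ (w _).1 _ at hfin
  change (w _).1 _ ≤ ((w _).1 _ * (w _).1 _) ⊔ (w _).1 _ at hfin2
  rw [k012, k023, zero_mul, sup_idem] at hfin2
  rw [k013, k123, mul_zero] at hfin
  have hz := le_antisymm hfin2 zero_le
  rw [hz, sup_idem] at hfin
  exact absurd hfin (not_le.mpr zero_lt_one)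

/-- The multiplicative lattice of the order ideals of `SS Big`. -/
abbrev LL : Type := Order.Ideal (SS Big)

theorem not_represented {R : Type*} [CommRing R] : ¬ RepresentedBy LL R := by
  rintro ⟨f, hf⟩
  obtain ⟨w, hw⟩ := exists_isVal splits_SS f hf
  exact no_isVal w hw

end Pool.Agent.Helper52.RLat
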